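import Mathlib

/-!
# Lower bounds for binomial probabilities in the middle
-/

set_option autoImplicit false

namespace Pool.Agent.U272.LB

lemma cb_low (m : ℕ) (hm : 1 ≤ m) : (16 : ℝ) ^ m ≤ 4 * m * (Nat.centralBinom m : ℝ) ^ 2 := by
  induction m, hm using Nat.le_induction with
  | base => norm_num [Nat.centralBinom]
  | succ m hm ih =>
    have h := Nat.succ_mul_centralBinom_succ m
    have h' : ((m : ℝ) + 1) * (Nat.centralBinom (m + 1) : ℝ) =
        2 * (2 * m + 1) * (Nat.centralBinom m : ℝ) := by exact_mod_cast h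
    have hm0 : (1 : ℝ) ≤ m := by exact_mod_cast hm
    set c := (Nat.centralBinom m : ℝ) with hc
    set c' := (Nat.centralBinom (m + 1) : ℝ) with hc'
    have h1 : ((m : ℝ) + 1) * (4 * ((m : ℝ) + 1) * c' ^ 2) = 4 * (2 * (2 * m + 1) * c) ^ 2 := by
      rw [← h']
      ring
    have h2 : ((m : ℝ) + 1) * (16 : ℝ) ^ (m + 1) ≤ 4 * (2 * (2 * m + 1) * c) ^ 2 := by
      rw [pow_succ]
      have h3 : (4 * (2 * (2 * (m : ℝ) + 1) * c) ^ 2) * m = (4 * m * c ^ 2) * (4 * (2 * m + 1) ^ 2) := by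
        ring
      have h4 : ((m : ℝ) + 1) * (16 ^ m * 16) * m ≤ (4 * (2 * (2 * m + 1) * c) ^ 2) * m := by
        rw [h3]
        have h5 : (16 : ℝ) ^ m * (4 * (2 * m + 1) ^ 2) ≤ (4 * m * c ^ 2) * (4 * (2 * m + 1) ^ 2) :=
          mul_le_mul_of_nonneg_right ih (by positivity)
        refine le_trans ?_ h5
        have h6 : (0 : ℝ) < 16 ^ m := by positivity
        nlinarith
      exact le_of_mul_le_mul_right h4 (by linarith)
    rw [← h1] at h2
    have h7 := le_of_mul_le_mul_left h2 (by linarith)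
    push_cast
    exact h7

lemma choose_mid (N : ℕ) (hN : 2 ≤ N) :
    (2 : ℝ) ^ N ≤ 4 * Real.sqrt N * (N.choose (N / 2) : ℝ) := by
  obtain ⟨m, hm⟩ : ∃ m, m = N / 2 := ⟨_, rfl⟩
  have hm1 : 1 ≤ m := by omega
  have hmN : 2 * m ≤ N := by omega
  have h1 := cb_low m hm1
  have h2 : Nat.centralBinom m ≤ N.choose (N / 2) := by
    rw [Nat.centralBinom_eq_two_mul_choose, ← hm]
    exact Nat.choose_le_choose m hmN
  have h2' : (Nat.centralBinom m : ℝ) ≤ (N.choose (N / 2) : ℝ) := by exact_mod_cast h2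
  have h3 : (2 : ℝ) ^ N ≤ 2 * 4 ^ m := by
    have h4 : N ≤ 2 * m + 1 := by omega
    calc (2 : ℝ) ^ N ≤ 2 ^ (2 * m + 1) := pow_le_pow_right₀ (by norm_num) h4
      _ = 2 * 4 ^ m := by rw [pow_succ, pow_mul]; norm_num; ring
  have h5 : (4 : ℝ) ^ m ≤ 2 * Real.sqrt N * (N.choose (N / 2) : ℝ) := by
    have h6 : ((4 : ℝ) ^ m) ^ 2 ≤ (2 * Real.sqrt N * (N.choose (N / 2) : ℝ)) ^ 2 := by
      have h7 : ((4 : ℝ) ^ m) ^ 2 = 16 ^ m := by
        rw [← pow_mul, mul_comm, pow_mul]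
        norm_num
      have h8 : (m : ℝ) ≤ N := by exact_mod_cast (by omega : m ≤ N)
      rw [h7, mul_pow, mul_pow, Real.sq_sqrt (Nat.cast_nonneg _)]
      refine h1.trans ?_
      have h9 : (Nat.centralBinom m : ℝ) ^ 2 ≤ (N.choose (N / 2) : ℝ) ^ 2 :=
        pow_le_pow_left₀ (Nat.cast_nonneg _) h2' 2
      calc 4 * (m : ℝ) * (Nat.centralBinom m : ℝ) ^ 2 ≤ 4 * N * (N.choose (N / 2) : ℝ) ^ 2 := by
            gcongr
        _ = _ := by ring
    exact le_of_pow_le_pow_left₀ (by norm_num) (by positivity) h6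
  linarith

/-- the binomial weights near the middle -/
lemma weight_low {N a : ℕ} (ha : 2 ≤ a) (hN : N ≤ 4 * a ^ 2) {F : ℝ}
    (hF : |2 * F - 1| ≤ 1 / a) :
    (1 / 2 : ℝ) ^ N * (1 / 512) ≤ F ^ (N / 2) * (1 - F) ^ (N - N / 2) := by
  have ha0 : (2 : ℝ) ≤ a := by exact_mod_cast ha
  set u := 2 * F - 1 with hu
  have h1a : (1 : ℝ) / a ≤ 1 / 2 := by
    apply one_div_le_one_div_of_le <;> linarith
  have hu2 := abs_le.1 hF
  have hF1 : F = (1 / 2) * (1 + u) := by rw [hu]; ring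
  have hF2 : 1 - F = (1 / 2) * (1 - u) := by rw [hu]; ring
  have huu : u ^ 2 ≤ 1 / (a : ℝ) ^ 2 := by
    rw [← sq_abs u, show (1 : ℝ) / (a : ℝ) ^ 2 = (1 / a) ^ 2 by rw [one_div_pow]]
    exact pow_le_pow_left₀ (abs_nonneg _) hF 2
  set v : ℝ := 1 / (a : ℝ) ^ 2 with hv
  have hv1 : v ≤ 1 / 4 := by
    rw [hv]
    apply one_div_le_one_div_of_le (by norm_num)
    nlinarith
  have hv0 : 0 < v := by positivity
  obtain ⟨t, ht⟩ : ∃ t, t = N / 2 := ⟨_, rfl⟩
  rw [← ht]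
  -- the power of `1 - v`
  have hpow : (1 / 256 : ℝ) ≤ (1 - v) ^ t := by
    obtain ⟨s, hs⟩ : ∃ s, s = t / 8 + 1 := ⟨_, rfl⟩
    have hts : t ≤ 8 * s := by omega
    have hsa : 2 * s ≤ a ^ 2 := by
      have h1 : 8 * (s - 1) ≤ t := by omega
      have h2 : 2 * t ≤ 4 * a ^ 2 := by omega
      have h3 : 4 ≤ a ^ 2 := by nlinarith
      omega
    have hsv : s * v ≤ 1 / 2 := by
      have h1 : (2 * s : ℝ) ≤ (a : ℝ) ^ 2 := by exact_mod_cast hsa
      rw [hv, mul_one_div, div_le_iff₀ (by positivity)]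
      linarith
    have hb := one_add_mul_le_pow (a := -v) (by linarith) s
    have hb' : 1 / 2 ≤ (1 - v) ^ s := by
      have : 1 + (s : ℝ) * -v ≤ (1 - v) ^ s := by
        rw [sub_eq_add_neg]; exact hb
      linarith
    calc (1 / 256 : ℝ) = (1 / 2) ^ 8 := by norm_num
      _ ≤ ((1 - v) ^ s) ^ 8 := pow_le_pow_left₀ (by norm_num) hb' 8
      _ = (1 - v) ^ (8 * s) := by rw [← pow_mul, mul_comm]
      _ ≤ (1 - v) ^ t := pow_le_pow_of_le_one (by linarith) (by linarith) hts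
  have hNt : N - t = t ∨ N - t = t + 1 := by omega
  have hkey : (1 / 512 : ℝ) ≤ (1 + u) ^ t * (1 - u) ^ (N - t) := by
    have h1 : (1 / 256 : ℝ) ≤ ((1 + u) * (1 - u)) ^ t := by
      refine hpow.trans (pow_le_pow_left₀ (by linarith) ?_ t)
      nlinarith
    rw [mul_pow] at h1
    rcases hNt with h | h
    · rw [h]
      linarith
    · rw [h, pow_succ, ← mul_assoc]
      have h2 : 1 / 2 ≤ 1 - u := by linarith
      nlinarith
  have hsplit : (1 / 2 : ℝ) ^ N = (1 / 2) ^ t * (1 / 2) ^ (N - t) := by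
    rw [← pow_add]
    congr 1
    omega
  rw [hF2]
  conv_rhs => rw [hF1]
  rw [mul_pow, mul_pow, hsplit]
  have h3 : (0 : ℝ) < (1 / 2) ^ t * (1 / 2) ^ (N - t) := by positivity
  calc (1 / 2 : ℝ) ^ t * (1 / 2) ^ (N - t) * (1 / 512) ≤
      (1 / 2 : ℝ) ^ t * (1 / 2) ^ (N - t) * ((1 + u) ^ t * (1 - u) ^ (N - t)) :=
        mul_le_mul_of_nonneg_left hkey h3.le
    _ = _ := by ring

end Pool.Agent.U272.LB
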