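import Pool.Agent.Results.MP_a08d0a_co.IidLevel

/-!
# The complexity of a level is at least the number of crossings of the level below
-/

set_option autoImplicit false

namespace Pool.Agent.U272.LB

open Finset MeasureTheory Filter Pool.Agent.H189R2.Lev Pool.Agent.H189R2.Iid
open Pool.Agent.Results.MP_a08d0a_co.IidLevel
open scoped ENNReal Topology

theorem level_max {n : ℕ} {a B : Fin n → ℝ} (hS : Simple a B) {i j : Fin n} (hij : i ≠ j)
    {x : ℝ} {k : ℕ} (hx : ht a B i x = ht a B j x)
    (hk : {l | ht a B l x < ht a B i x}.ncard = k) :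
    ∀ᶠ x' in 𝓝 x, level a B (k + 1) x' = max (ht a B i x') (ht a B j x') := by
  classical
  have hcont : ∀ l, Continuous (ht a B l) := by
    intro l; unfold ht; fun_prop
  have hev : ∀ᶠ x' in 𝓝 x, ∀ l ∈ (univ : Finset (Fin n)),
      (ht a B l x < ht a B i x → ht a B l x' < ht a B i x' ∧ ht a B l x' < ht a B j x') ∧
      (ht a B i x < ht a B l x → ht a B i x' < ht a B l x' ∧ ht a B j x' < ht a B l x') := by
    rw [Filter.eventually_all_finset]
    intro l _
    rw [Filter.eventually_and]
    constructor
    · by_cases h : ht a B l x < ht a B i x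
      · have h' : ht a B l x < ht a B j x := by rw [← hx]; exact h
        filter_upwards [((hcont l).tendsto x).eventually_lt ((hcont i).tendsto x) h,
          ((hcont l).tendsto x).eventually_lt ((hcont j).tendsto x) h'] with x' h1 h2 _
        exact ⟨h1, h2⟩
      · exact Eventually.of_forall (fun _ h' => absurd h' h)
    · by_cases h : ht a B i x < ht a B l x
      · have h' : ht a B j x < ht a B l x := by rw [← hx]; exact h
        filter_upwards [((hcont i).tendsto x).eventually_lt ((hcont l).tendsto x) h,
          ((hcont j).tendsto x).eventually_lt ((hcont l).tendsto x) h'] with x' h1 h2 _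
        exact ⟨h1, h2⟩
      · exact Eventually.of_forall (fun _ h' => absurd h' h)
  filter_upwards [hev] with x' hx'
  have hside : ∀ l, l ≠ i → l ≠ j → ¬ ht a B l x < ht a B i x → ht a B i x < ht a B l x := by
    intro l h1 h2 h3
    rcases lt_trichotomy (ht a B l x) (ht a B i x) with h | h | h
    · exact absurd h h3
    · exact absurd ⟨x, hx, h.symm⟩ (hS.2 i j l hij (Ne.symm h1) (Ne.symm h2))
    · exact h
  apply level_eq
  · have hsub : {l | ht a B l x' < max (ht a B i x') (ht a B j x')} ⊆
        insert (if ht a B i x' ≤ ht a B j x' then i else j) {l | ht a B l x < ht a B i x} := by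
      intro l hl
      rw [Set.mem_ofPred_eq] at hl
      rw [Set.mem_insert_iff, Set.mem_ofPred_eq]
      by_cases h3 : ht a B l x < ht a B i x
      · exact Or.inr h3
      · left
        by_cases hli : l = i
        · subst hli
          by_cases hle : ht a B l x' ≤ ht a B j x'
          · rw [if_pos hle]
          · push Not at hle
            rw [max_eq_left hle.le] at hl
            exact absurd hl (lt_irrefl _)
        · by_cases hlj : l = j
          · subst hlj
            by_cases hle : ht a B i x' ≤ ht a B l x'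
            · rw [max_eq_right hle] at hl
              exact absurd hl (lt_irrefl _)
            · rw [if_neg hle]
          · exfalso
            have h4 := (hx' l (mem_univ l)).2 (hside l hli hlj h3)
            rcases max_choice (ht a B i x') (ht a B j x') with h5 | h5
            · rw [h5] at hl
              linarith [h4.1]
            · rw [h5] at hl
              linarith [h4.2]
    refine (Set.ncard_le_ncard hsub (Set.toFinite _)).trans ?_
    refine (Set.ncard_insert_le _ _).trans ?_
    rw [hk]
  · have hsub : insert i (insert j {l | ht a B l x < ht a B i x}) ⊆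
        {l | ht a B l x' ≤ max (ht a B i x') (ht a B j x')} := by
      intro l hl
      rw [Set.mem_insert_iff, Set.mem_insert_iff, Set.mem_ofPred_eq] at hl
      rw [Set.mem_ofPred_eq]
      rcases hl with rfl | rfl | h
      · exact le_max_left _ _
      · exact le_max_right _ _
      · exact (((hx' l (mem_univ l)).1 h).1.le).trans (le_max_left _ _)
    have hj : j ∉ {l | ht a B l x < ht a B i x} := by
      rw [Set.mem_ofPred_eq, hx]
      exact lt_irrefl _
    have hi : i ∉ insert j {l | ht a B l x < ht a B i x} := by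
      rw [Set.mem_insert_iff, Set.mem_ofPred_eq]
      rintro (h | h)
      · exact hij h
      · exact lt_irrefl _ h
    have h1 := Set.ncard_insert_of_notMem hj (Set.toFinite _)
    have h2 := Set.ncard_insert_of_notMem hi (Set.toFinite _)
    have h3 := Set.ncard_le_ncard hsub (Set.toFinite _)
    omega

theorem le_psi {n : ℕ} {a B : Fin n → ℝ} (hS : Simple a B) (k : ℕ) :
    ((crossings a B k).ncard : ℕ∞) ≤ psi a B (k + 1) := by
  classical
  have hmax : ∀ q ∈ crossings a B k, ht a B q.1 (cr a B q.1 q.2) = ht a B q.2 (cr a B q.1 q.2) ∧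
      ∀ᶠ x' in 𝓝 (cr a B q.1 q.2), level a B (k + 1) x' =
        max (ht a B q.1 x') (ht a B q.2 x') := by
    rintro q ⟨h1, h2, h3⟩
    have h4 := ht_cr (B := B) h2
    exact ⟨h4.symm, level_max hS h1.ne h4.symm h3⟩
  have hinj : Set.InjOn (fun q : Fin n × Fin n => cr a B q.1 q.2) (crossings a B k) := by
    rintro ⟨i, j⟩ hq ⟨i', j'⟩ hq' heq
    simp only at heq
    obtain ⟨e1, e2⟩ := hmax _ hq
    obtain ⟨e1', e2'⟩ := hmax _ hq'
    have e3 := e2.self_of_nhds
    have e3' := e2'.self_of_nhds
    simp only at e1 e1' e3 e3'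
    rw [← heq] at e3' e1'
    set x := cr a B i j with hx
    rw [e3, ← e1, ← e1', max_self, max_self] at e3'
    -- all four lines pass through the point
    have h1 : i < j := hq.1
    have h1' : i' < j' := hq'.1
    have hi' : i' = i ∨ i' = j := by
      by_contra hc
      push Not at hc
      exact hS.2 i j i' h1.ne (Ne.symm hc.1) (Ne.symm hc.2) ⟨x, e1, e3'⟩
    have hj' : j' = i ∨ j' = j := by
      by_contra hc
      push Not at hc
      exact hS.2 i j j' h1.ne (Ne.symm hc.1) (Ne.symm hc.2) ⟨x, e1, e3'.trans e1'⟩
    rcases hi' with rfl | rfl <;> rcases hj' with rfl | rfl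
    · exact absurd h1' (lt_irrefl _)
    · rfl
    · exact absurd h1' (lt_asymm h1)
    · exact absurd h1' (lt_irrefl _)
  have hsub : (fun q : Fin n × Fin n => cr a B q.1 q.2) '' (crossings a B k) ⊆
      {x : ℝ | ¬ ∃ l, level a B (k + 1) =ᶠ[𝓝 x] ht a B l} := by
    rintro _ ⟨⟨i, j⟩, hq, rfl⟩ ⟨l, hl⟩
    obtain ⟨e1, e2⟩ := hmax _ hq
    simp only at e1 e2 hl
    set x := cr a B i j with hx
    have h1 : i < j := hq.1
    have hslope : a i ≠ a j := hq.2.1
    have hxl := hl.self_of_nhds
    rw [e2.self_of_nhds, ← e1, max_self] at hxl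
    have hll : l = i ∨ l = j := by
      by_contra hc
      push Not at hc
      exact hS.2 i j l h1.ne (Ne.symm hc.1) (Ne.symm hc.2) ⟨x, e1, hxl⟩
    have hev : ∀ᶠ x' in 𝓝 x, ht a B l x' = max (ht a B i x') (ht a B j x') := by
      filter_upwards [hl, e2] with x' h3 h4
      rw [← h3, h4]
    obtain ⟨δ, hδ, hball⟩ := Metric.eventually_nhds_iff.mp hev
    have p1 := hball (y := x + δ / 2) (by
      rw [Real.dist_eq, show x + δ / 2 - x = δ / 2 by ring, abs_of_pos (by linarith)]
      linarith)
    have p2 := hball (y := x - δ / 2) (by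
      rw [Real.dist_eq, show x - δ / 2 - x = -(δ / 2) by ring, abs_neg, abs_of_pos (by linarith)]
      linarith)
    have q1 := le_max_left (ht a B i (x + δ / 2)) (ht a B j (x + δ / 2))
    have q2 := le_max_right (ht a B i (x + δ / 2)) (ht a B j (x + δ / 2))
    have q3 := le_max_left (ht a B i (x - δ / 2)) (ht a B j (x - δ / 2))
    have q4 := le_max_right (ht a B i (x - δ / 2)) (ht a B j (x - δ / 2))
    rw [← p1] at q1 q2
    rw [← p2] at q3 q4
    unfold ht at e1 q1 q2 q3 q4
    apply hslope
    rcases hll with rfl | rfl <;> nlinarith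
  calc ((crossings a B k).ncard : ℕ∞) = (crossings a B k).encard :=
        (Set.toFinite (crossings a B k)).cast_ncard_eq
    _ = ((fun q : Fin n × Fin n => cr a B q.1 q.2) '' (crossings a B k)).encard :=
        hinj.encard_image.symm
    _ ≤ psi a B (k + 1) := Set.encard_le_encard hsub

open Classical in
theorem lev_crossings {n : ℕ} {P : Fin n → ℝ × ℝ} (k : ℕ) :
    ((T P).filter (fun q => lev P q = k)).card ≤ (crossings (sl P) (ic P) k).ncard := by
  rw [← Set.ncard_coe_finset]
  have hlev : ∀ u v : Fin n, {l | ht (sl P) (ic P) l (cr (sl P) (ic P) u v) <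
      ht (sl P) (ic P) u (cr (sl P) (ic P) u v)}.ncard = lev P (u, v) := by
    intro u v
    unfold lev
    rw [← Set.ncard_coe_finset]
    congr 1
    ext l
    simp only [coe_filter, mem_univ, true_and]
    exact Iff.rfl
  apply Set.ncard_le_ncard_of_injOn (fun q : Fin n × Fin n =>
    if q.1 < q.2 then q else (q.2, q.1)) _ _ (Set.toFinite _)
  · rintro ⟨i, j⟩ hq
    rw [mem_coe, mem_filter, mem_T] at hq
    obtain ⟨h1, h2⟩ := hq
    simp only at h1 h2
    have hne : i ≠ j := by rintro rfl; exact lt_irrefl _ h1
    have hs : sl P i ≠ sl P j := ne_of_gt h1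
    by_cases h : i < j
    · simp only [if_pos h]
      exact ⟨h, hs, by rw [hlev]; exact h2⟩
    · simp only [if_neg h]
      refine ⟨lt_of_le_of_ne (not_lt.mp h) hne.symm, hs.symm, ?_⟩
      simp only
      rw [cr_symm, ht_cr (B := ic P) hs, hlev]
      exact h2
  · rintro ⟨i, j⟩ hq ⟨i', j'⟩ hq' heq
    rw [mem_coe, mem_filter, mem_T] at hq hq'
    have h1 := hq.1
    have h1' := hq'.1
    simp only at h1 h1' heq
    split_ifs at heq with h h' h'
    · exact heq
    · rw [Prod.mk.injEq] at heq
      rw [heq.1, heq.2] at h1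
      exact absurd h1 (lt_asymm h1')
    · rw [Prod.mk.injEq] at heq
      rw [← heq.1, ← heq.2] at h1'
      exact absurd h1 (lt_asymm h1')
    · rw [Prod.mk.injEq] at heq
      rw [heq.1, heq.2]

end Pool.Agent.U272.LB
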