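import Pool.Agent.U272.LB.Clu
import Pool.Agent.U272.LB.Mid
import Pool.Agent.U272.LB.Psi
import Pool.Agent.KLev.Final

/-!
# Random lines: a lower bound for the expected complexity of the halving level
-/

set_option autoImplicit false

namespace Pool.Agent.U272.LB

open Finset MeasureTheory Filter Pool.Agent.H189R2.Lev Pool.Agent.H189R2.Iid Topology
open Pool.Agent.Results.MP_a08d0a_co.IidLevel (sl ic psi simple_of_GP)
open scoped ENNReal

/-- the real inequality -/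
lemma real_ineq {n a : ℕ} {C E c : ℝ} (ha : 2 ≤ a) (h1 : a ^ 2 ≤ n) (h2 : n ≤ 4 * a ^ 2)
    (hlog : 100 ≤ Real.log n)
    (hE : ((4 * (a - 1) : ℕ) : ℝ) *
      Real.exp (2 * (|C| + 1) * Real.sqrt (Real.log ((4 * (a - 1) : ℕ) : ℝ))) ≤ E)
    (hc : (2 : ℝ) ^ (n - 2) ≤ 4 * Real.sqrt ((n - 2 : ℕ) : ℝ) * c) (hc0 : 0 ≤ c) :
    (n : ℝ) * Real.exp (C * Real.sqrt (Real.log n)) ≤
      ((n : ℝ) * n - n) * (c * ((1 / 2 : ℝ) ^ (n - 2) * (1 / 512)) * (E / ((2 * a : ℕ) : ℝ) ^ 2)) := by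
  have ha0 : (2 : ℝ) ≤ a := by exact_mod_cast ha
  have h1' : (a : ℝ) ^ 2 ≤ n := by exact_mod_cast h1
  have h2' : (n : ℝ) ≤ 4 * (a : ℝ) ^ 2 := by exact_mod_cast h2
  have hn4 : (4 : ℝ) ≤ n := by nlinarith
  have hs0 : 0 < Real.sqrt n := Real.sqrt_pos.2 (by linarith)
  have hss : Real.sqrt n * Real.sqrt n = n := Real.mul_self_sqrt (by linarith)
  have hsa : Real.sqrt n ≤ 2 * a := by
    rw [Real.sqrt_le_left (by positivity)]
    nlinarith
  have hm : Real.sqrt n ≤ ((4 * (a - 1) : ℕ) : ℝ) := by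
    refine hsa.trans ?_
    exact_mod_cast (by omega : 2 * a ≤ 4 * (a - 1))
  -- the bound for `E`
  have hlogm : Real.log n / 2 ≤ Real.log ((4 * (a - 1) : ℕ) : ℝ) := by
    have : Real.log (Real.sqrt n) = Real.log n / 2 := Real.log_sqrt (by linarith)
    rw [← this]
    exact Real.log_le_log hs0 hm
  have hsq : Real.sqrt (Real.log n) / 2 ≤ Real.sqrt (Real.log ((4 * (a - 1) : ℕ) : ℝ)) := by
    apply Real.le_sqrt_of_sq_le
    rw [div_pow, Real.sq_sqrt (by linarith)]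
    linarith
  have hC : 0 ≤ |C| := abs_nonneg C
  set z := Real.sqrt (Real.log n) with hz
  have hz10 : 10 ≤ z := by
    rw [hz]
    apply Real.le_sqrt_of_sq_le
    linarith
  have hE2 : Real.sqrt n * Real.exp ((|C| + 1) * z) ≤ E := by
    refine le_trans ?_ hE
    apply mul_le_mul hm _ (Real.exp_pos _).le (Nat.cast_nonneg _)
    apply Real.exp_le_exp.2
    have := mul_le_mul_of_nonneg_left hsq (by linarith : 0 ≤ 2 * (|C| + 1))
    linarith
  have hexp : 16384 * Real.exp (C * z) ≤ Real.exp ((|C| + 1) * z) := by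
    have h3 : (|C| + 1) * z = |C| * z + z := by ring
    rw [h3, Real.exp_add]
    have h4 : Real.exp (C * z) ≤ Real.exp (|C| * z) := by
      apply Real.exp_le_exp.2
      exact mul_le_mul_of_nonneg_right (le_abs_self C) (by linarith)
    have h5 : (16384 : ℝ) ≤ Real.exp z := by
      have h6 : (2.7 : ℝ) ≤ Real.exp 1 := by
        have := Real.exp_one_gt_d9
        linarith
      calc (16384 : ℝ) ≤ 2.7 ^ 10 := by norm_num
        _ ≤ (Real.exp 1) ^ 10 := pow_le_pow_left₀ (by norm_num) h6 10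
        _ = Real.exp 10 := by rw [← Real.exp_nat_mul]; norm_num
        _ ≤ Real.exp z := Real.exp_le_exp.2 hz10
    have h7 := Real.exp_pos (|C| * z)
    nlinarith [Real.exp_pos (C * z)]
  have hE0 : 0 ≤ E := le_trans (by positivity) hE2
  -- the binomial coefficient
  have hNn : Real.sqrt ((n - 2 : ℕ) : ℝ) ≤ Real.sqrt n := by
    apply Real.sqrt_le_sqrt
    exact_mod_cast (by omega : n - 2 ≤ n)
  have hc1 : 1 ≤ 4 * Real.sqrt n * (c * (1 / 2 : ℝ) ^ (n - 2)) := by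
    have h3 : (2 : ℝ) ^ (n - 2) * (1 / 2 : ℝ) ^ (n - 2) = 1 := by
      rw [← mul_pow]
      norm_num
    have h4 : (2 : ℝ) ^ (n - 2) ≤ 4 * Real.sqrt n * c := by
      refine hc.trans ?_
      gcongr
    have h5 : (0 : ℝ) ≤ (1 / 2 : ℝ) ^ (n - 2) := by positivity
    have h6 := mul_le_mul_of_nonneg_right h4 h5
    rw [h3] at h6
    linarith
  set w := c * (1 / 2 : ℝ) ^ (n - 2) with hw
  have hw0 : 0 ≤ w := by positivity
  -- conclusion
  have h3 : (n : ℝ) * (16384 * Real.exp (C * z)) ≤ Real.sqrt n * E := by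
    calc (n : ℝ) * (16384 * Real.exp (C * z)) ≤ n * Real.exp ((|C| + 1) * z) :=
          mul_le_mul_of_nonneg_left hexp (by linarith)
      _ = Real.sqrt n * (Real.sqrt n * Real.exp ((|C| + 1) * z)) := by rw [← mul_assoc, hss]
      _ ≤ Real.sqrt n * E := mul_le_mul_of_nonneg_left hE2 hs0.le
  have hnn : (n : ℝ) / 2 * n ≤ (n : ℝ) * n - n := by nlinarith
  have h5 : E / (4 * n) ≤ E / ((2 * a : ℕ) : ℝ) ^ 2 := by
    apply div_le_div_of_nonneg_left hE0 (by positivity)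
    push_cast
    nlinarith
  have h6 : 1 / (4 * Real.sqrt n) ≤ w := by
    rw [div_le_iff₀ (by positivity)]
    linarith
  calc (n : ℝ) * Real.exp (C * z) ≤ Real.sqrt n * E / 16384 := by
        rw [le_div_iff₀ (by norm_num)]
        linarith
    _ = ((n : ℝ) / 2 * n) * ((1 / (4 * Real.sqrt n)) * (1 / 512) * (E / (4 * n))) := by
        have : (n : ℝ) ≠ 0 := by linarith
        field_simp
        rw [show Real.sqrt n ^ 2 = n by rw [sq, hss]]
        ring
    _ ≤ ((n : ℝ) * n - n) * (w * (1 / 512) * (E / ((2 * a : ℕ) : ℝ) ^ 2)) := by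
        have hnn0 : (0 : ℝ) ≤ (n : ℝ) * n - n := by nlinarith
        gcongr
    _ = _ := by rw [hw]; ring

lemma ev_of_has {N E Q k M : ℕ} (h : KLev.Has N E Q) (h1 : N ≤ k + 1) (h2 : N + k + 1 ≤ M) :
    ∃ (ι R : Type) (_ : Fintype ι) (_ : Fintype R) (S : KLev.Ev ι R k Q),
      Function.Injective S.s ∧ Fintype.card ι = M ∧ Fintype.card R = E := by
  obtain ⟨ι, R, _, _, κ, Cc, -, h3, h4, h5, h6⟩ := h
  obtain ⟨C'⟩ := KLev.pad Cc (M - N - (k + 1 - κ)) (k + 1 - κ)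
  have e1 : κ + (k + 1 - κ) = k + 1 := by omega
  rw [e1] at C'
  obtain ⟨S, h7, -⟩ := KLev.nice C'
  refine ⟨_, R, inferInstance, inferInstance, S, h7, ?_, h4⟩
  simp only [Fintype.card_sum, Fintype.card_fin, h3]
  omega

open Classical in
/-- a law from the events of a level of a family of lines -/
lemma ev_law {ι R : Type} [Fintype ι] [Fintype R] {k Q a n : ℕ} (S : KLev.Ev ι R k Q)
    (hS : Function.Injective S.s) (hι : Fintype.card ι = 2 * a) (hk : k + 1 = a) (ha : 2 ≤ a)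
    (hn : n ≤ 4 * a ^ 2) :
    ∃ μ : Measure (ℝ × ℝ), IsProbabilityMeasure μ ∧ μ ≪ volume ∧ LN μ ∧
      ENNReal.ofReal (((n : ℝ) * n - n) * ((n - 2).choose ((n - 2) / 2) *
        ((1 / 2 : ℝ) ^ (n - 2) * (1 / 512)) * (Fintype.card R / ((2 * a : ℕ) : ℝ) ^ 2))) ≤
      ∫⁻ P, (((T P).filter (fun q => lev P q = (n - 2) / 2)).card : ℝ≥0∞)
        ∂Measure.pi (fun _ : Fin n => μ) := by
  have hne : Nonempty ι := Fintype.card_pos_iff.1 (by omega)
  set L : ι → ℝ × ℝ := fun i => (S.s i, S.t i) with hL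
  have hLinj : Function.Injective L := fun i j h => hS (congrArg Prod.fst h)
  have hX : ∀ r, X2 (L (S.a r)) (L (S.b r)) = S.X r := by
    intro r
    have h1 := S.hs r
    have h2 := S.tie r
    show (S.t (S.b r) - S.t (S.a r)) / (S.s (S.a r) - S.s (S.b r)) = S.X r
    rw [div_eq_iff (by linarith)]
    linarith
  have hY : ∀ r, Y2 (L (S.a r)) (L (S.b r)) = S.s (S.a r) * S.X r + S.t (S.a r) := by
    intro r
    unfold Y2
    rw [hX]
  obtain ⟨ε, hε, hT⟩ := exists_tiny (L := L) (a := S.a) (b := S.b) hLinj (fun r => S.hs r)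
    (fun r c h1 h2 => by
      rw [hX, hY]
      exact S.hne r c h1 h2)
  have hkk : ∀ r, (univ.filter (fun c => L c ∈ low (L (S.a r)) (L (S.b r)))).card = k := by
    intro r
    rw [card_filter]
    refine Eq.trans ?_ (S.hcard r)
    apply sum_congr rfl
    intro c _
    have : (L c ∈ low (L (S.a r)) (L (S.b r))) ↔
        S.s c * S.X r + S.t c < S.s (S.a r) * S.X r + S.t (S.a r) := by
      show (L c).1 * X2 (L (S.a r)) (L (S.b r)) + (L c).2 < Y2 (L (S.a r)) (L (S.b r)) ↔ _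
      rw [hX, hY]
    simp only [this]
  have hinj : ∀ r r', S.a r = S.a r' → S.b r = S.b r' → r = r' := by
    intro r r' h1 h2
    apply S.hX
    rw [← hX, ← hX, h1, h2]
  have hlow := clu_lower hε hT hinj hkk n ((n - 2) / 2)
    (m0 := (1 / 2 : ℝ) ^ (n - 2) * (1 / 512)) (by positivity) (by
    intro F hF1 hF2
    rw [hι] at hF1 hF2
    apply weight_low (a := a) (by omega) (by omega)
    have ha0 : (0 : ℝ) < a := by exact_mod_cast (by omega : 0 < a)
    have e2 : (k : ℝ) = a - 1 := by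
      rw [← hk]
      push_cast
      ring
    rw [e2] at hF1 hF2
    push_cast at hF1 hF2
    rw [div_le_iff₀ (by positivity)] at hF1
    rw [le_div_iff₀ (by positivity)] at hF2
    rw [abs_le]
    constructor
    · rw [neg_le, neg_sub]
      rw [le_div_iff₀ ha0]
      linarith
    · rw [le_div_iff₀ ha0]
      linarith)
  rw [hι] at hlow
  exact ⟨mix L ε, mix_prob hε, mix_ac, mix_LN, hlow⟩

/-- from crossings to the complexity -/
lemma to_psi {μ : Measure (ℝ × ℝ)} [IsProbabilityMeasure μ] (hμ : LN μ) {n : ℕ} (hn : 2 ≤ n)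
    {x : ℝ≥0∞}
    (h : x ≤ ∫⁻ P, (((T P).filter (fun q => lev P q = (n - 2) / 2)).card : ℝ≥0∞)
      ∂Measure.pi (fun _ : Fin n => μ)) :
    x ≤ ∫⁻ P, (psi (sl P) (ic P) (n / 2) : ℝ≥0∞) ∂Measure.pi (fun _ : Fin n => μ) := by
  refine h.trans ?_
  apply lintegral_mono_ae
  filter_upwards [ae_GP hμ n] with P hP
  have h8 := lev_crossings (P := P) ((n - 2) / 2)
  have h9 := le_psi (simple_of_GP hP) ((n - 2) / 2)
  have e3 : (n - 2) / 2 + 1 = n / 2 := by omega
  rw [e3] at h9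
  have h10 : (((T P).filter (fun q => lev P q = (n - 2) / 2)).card : ℕ∞) ≤
      psi (sl P) (ic P) (n / 2) := le_trans (by exact_mod_cast h8) h9
  have h11 := ENat.toENNReal_mono h10
  simpa using h11

/-- **Lower bound for independent random lines.** -/
theorem lower (C : ℝ) : ∀ᶠ n : ℕ in atTop, ∃ μ : Measure (ℝ × ℝ), IsProbabilityMeasure μ ∧
    μ ≪ volume ∧ ENNReal.ofReal (n * Real.exp (C * Real.sqrt (Real.log n))) ≤
      ∫⁻ P, (psi (sl P) (ic P) (n / 2) : ℝ≥0∞) ∂Measure.pi (fun _ : Fin n => μ) := by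
  have hC : 0 ≤ 2 * (|C| + 1) := by positivity
  obtain ⟨m₀, hm₀⟩ := (KLev.final (2 * (|C| + 1)) hC).exists_forall_of_atTop
  have hlog : ∀ᶠ n : ℕ in atTop, 100 ≤ Real.log n :=
    (Real.tendsto_log_atTop.comp tendsto_natCast_atTop_atTop).eventually_ge_atTop 100
  filter_upwards [hlog, eventually_ge_atTop ((m₀ + 2) ^ 2)] with n hn1 hn2
  obtain ⟨a, ha⟩ : ∃ a, a = Nat.sqrt n := ⟨_, rfl⟩
  have ha1 : a ^ 2 ≤ n := by rw [ha]; exact Nat.sqrt_le' n
  have ha2 : n < (a + 1) ^ 2 := by rw [ha]; exact Nat.lt_succ_sqrt' n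
  have ha3 : m₀ + 2 ≤ a := by
    by_contra h
    push Not at h
    have : (a + 1) ^ 2 ≤ (m₀ + 2) ^ 2 := Nat.pow_le_pow_left (by omega) 2
    omega
  have ha4 : n ≤ 4 * a ^ 2 := by
    have : (a + 1) ^ 2 ≤ (2 * a) ^ 2 := Nat.pow_le_pow_left (by omega) 2
    nlinarith
  have hn4 : 4 ≤ n := by nlinarith
  obtain ⟨N, E, Q, hH, hN, hE⟩ := hm₀ (a - 1) (by omega)
  obtain ⟨ι, R, _, _, S, h1, h2, h3⟩ := ev_of_has hH (k := a - 1) (M := 2 * a) (by omega) (by omega)
  obtain ⟨μ, hp, hac, hLN, hlow⟩ := ev_law (n := n) S h1 h2 (by omega) (by omega) ha4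
  refine ⟨μ, hp, hac, to_psi hLN (by omega) (le_trans (ENNReal.ofReal_le_ofReal ?_) hlow)⟩
  rw [h3]
  exact real_ineq (by omega) ha1 ha4 hn1 (by exact_mod_cast hE) (choose_mid (n - 2) (by omega))
    (Nat.cast_nonneg _)

end Pool.Agent.U272.LB
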