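import Pool.Agent.H189R2.Iid.Main
import Pool.Agent.KLev.Nice

/-!
# A random line near one of finitely many lines
-/

set_option autoImplicit false

namespace Pool.Agent.U272.LB

open Finset MeasureTheory Filter Pool.Agent.H189R2.Lev Pool.Agent.H189R2.Iid Topology
open scoped ENNReal

section null

lemma line_null (a b c : ℝ) (h : a ≠ 0 ∨ b ≠ 0) :
    (volume : Measure (ℝ × ℝ)) {y | a * y.1 + b * y.2 = c} = 0 := by
  have hm : MeasurableSet {y : ℝ × ℝ | a * y.1 + b * y.2 = c} :=
    measurableSet_eq_fun ((measurable_const.mul measurable_fst).add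
      (measurable_const.mul measurable_snd)) measurable_const
  rw [Measure.volume_eq_prod, Measure.measure_prod_null hm]
  by_cases hb : b = 0
  · have ha : a ≠ 0 := by
      rcases h with h | h
      · exact h
      · exact absurd hb h
    have h1 : ∀ᵐ x : ℝ, x ≠ c / a := by
      have : (volume : Measure ℝ) {c / a} = 0 := Real.volume_singleton
      rw [ae_iff]
      simp
    filter_upwards [h1] with x hx
    have : (Prod.mk x ⁻¹' {y : ℝ × ℝ | a * y.1 + b * y.2 = c}) = ∅ := by
      ext y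
      simp only [Set.mem_preimage, Set.mem_ofPred_eq, Set.mem_empty_iff_false, iff_false]
      rw [hb, zero_mul, add_zero]
      intro h2
      apply hx
      rw [eq_div_iff ha]
      linarith
    rw [this]
    simp
  · filter_upwards with x
    have : (Prod.mk x ⁻¹' {y : ℝ × ℝ | a * y.1 + b * y.2 = c}) ⊆ {(c - a * x) / b} := by
      intro y hy
      simp only [Set.mem_preimage, Set.mem_ofPred_eq] at hy
      rw [Set.mem_singleton_iff, eq_div_iff hb]
      linarith
    exact measure_mono_null this Real.volume_singleton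

end null

variable {ι : Type} [Fintype ι]

/-- uniform law on the square of radius `ε` around the line `L i` -/
noncomputable def nu (L : ι → ℝ × ℝ) (ε : ℝ) (i : ι) : Measure (ℝ × ℝ) :=
  ProbabilityTheory.cond volume (Metric.ball (L i) ε)

/-- the mixture of these laws -/
noncomputable def mix (L : ι → ℝ × ℝ) (ε : ℝ) : Measure (ℝ × ℝ) :=
  (Fintype.card ι : ℝ≥0∞)⁻¹ • ∑ i, nu L ε i

variable {L : ι → ℝ × ℝ} {ε : ℝ}

lemma ball_ne_zero (hε : 0 < ε) (i : ι) : (volume : Measure (ℝ × ℝ)) (Metric.ball (L i) ε) ≠ 0 :=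
  (Metric.measure_ball_pos volume _ hε).ne'

lemma ball_ne_top (i : ι) : (volume : Measure (ℝ × ℝ)) (Metric.ball (L i) ε) ≠ ⊤ :=
  measure_ball_lt_top.ne

lemma nu_prob (hε : 0 < ε) (i : ι) : IsProbabilityMeasure (nu L ε i) :=
  ProbabilityTheory.cond_isProbabilityMeasure_of_finite (ball_ne_zero hε i) (ball_ne_top i)

lemma nu_ac (i : ι) : nu L ε i ≪ volume := ProbabilityTheory.cond_absolutelyContinuous

lemma nu_ball (hε : 0 < ε) (i : ι) : nu L ε i (Metric.ball (L i) ε) = 1 := by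
  unfold nu
  rw [ProbabilityTheory.cond_apply measurableSet_ball, Set.inter_self]
  exact ENNReal.inv_mul_cancel (ball_ne_zero hε i) (ball_ne_top i)

lemma nu_out {i : ι} {s : Set (ℝ × ℝ)} (h : Disjoint (Metric.ball (L i) ε) s) :
    nu L ε i s = 0 := by
  unfold nu
  rw [ProbabilityTheory.cond_apply measurableSet_ball, Set.disjoint_iff_inter_eq_empty.1 h,
    measure_empty, mul_zero]

lemma mix_apply (s : Set (ℝ × ℝ)) :
    mix L ε s = (Fintype.card ι : ℝ≥0∞)⁻¹ * ∑ i, nu L ε i s := by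
  unfold mix
  rw [Measure.smul_apply, Measure.finsetSum_apply, smul_eq_mul]

lemma mix_prob [Nonempty ι] (hε : 0 < ε) : IsProbabilityMeasure (mix L ε) := by
  constructor
  rw [mix_apply]
  have : ∀ i, nu L ε i Set.univ = 1 := fun i => (nu_prob hε i).measure_univ
  simp only [this, sum_const, card_univ, nsmul_eq_mul, mul_one]
  exact ENNReal.inv_mul_cancel (by simp) (ENNReal.natCast_ne_top _)

lemma mix_ac : mix L ε ≪ volume := by
  intro s hs
  rw [mix_apply]
  have : ∀ i, nu L ε i s = 0 := fun i => nu_ac i hs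
  simp [this]

lemma mix_LN : LN (mix L ε) := fun a b c h => mix_ac (line_null a b c h)

/-- the radius is small enough -/
structure Tiny {R : Type} (L : ι → ℝ × ℝ) (a b : R → ι) (ε : ℝ) : Prop where
  disj : ∀ i j, i ≠ j → Disjoint (Metric.ball (L i) ε) (Metric.ball (L j) ε)
  lt : ∀ r, ∀ p ∈ Metric.ball (L (a r)) ε, ∀ q ∈ Metric.ball (L (b r)) ε, q.1 < p.1
  side : ∀ r c, c ≠ a r → c ≠ b r → ∀ p ∈ Metric.ball (L (a r)) ε,
    ∀ q ∈ Metric.ball (L (b r)) ε, ∀ z ∈ Metric.ball (L c) ε,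
      (z ∈ low p q ↔ L c ∈ low (L (a r)) (L (b r)))

lemma cont_X2 {p q : ℝ × ℝ} (h : q.1 < p.1) :
    ContinuousAt (fun w : (ℝ × ℝ) × (ℝ × ℝ) => X2 w.1 w.2) (p, q) := by
  unfold X2
  apply ContinuousAt.div
  · fun_prop
  · fun_prop
  · show p.1 - q.1 ≠ 0
    linarith

lemma cont_side {p q z : ℝ × ℝ} (h : q.1 < p.1) :
    ContinuousAt (fun w : ((ℝ × ℝ) × (ℝ × ℝ)) × (ℝ × ℝ) =>
      w.2.1 * X2 w.1.1 w.1.2 + w.2.2 - Y2 w.1.1 w.1.2) ((p, q), z) := by
  have h1 : ContinuousAt (fun w : ((ℝ × ℝ) × (ℝ × ℝ)) × (ℝ × ℝ) => X2 w.1.1 w.1.2) ((p, q), z) :=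
    ContinuousAt.comp (f := fun w : ((ℝ × ℝ) × (ℝ × ℝ)) × (ℝ × ℝ) => w.1)
      (g := fun w : (ℝ × ℝ) × (ℝ × ℝ) => X2 w.1 w.2) (cont_X2 h) continuous_fst.continuousAt
  unfold Y2
  fun_prop

lemma exists_tiny {R : Type} [Finite R] (hL : Function.Injective L) {a b : R → ι}
    (hs : ∀ r, (L (b r)).1 < (L (a r)).1)
    (hne : ∀ r c, c ≠ a r → c ≠ b r →
      (L c).1 * X2 (L (a r)) (L (b r)) + (L c).2 ≠ Y2 (L (a r)) (L (b r))) :
    ∃ ε : ℝ, 0 < ε ∧ Tiny L a b ε := by
  have h1 : ∀ i j, ∀ᶠ ε in 𝓝[>] (0 : ℝ), i ≠ j →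
      Disjoint (Metric.ball (L i) ε) (Metric.ball (L j) ε) := by
    intro i j
    by_cases hij : i = j
    · exact Eventually.of_forall fun _ h => absurd hij h
    · have hd : 0 < dist (L i) (L j) := dist_pos.2 fun h => hij (hL h)
      filter_upwards [Ioo_mem_nhdsGT (half_pos hd)] with ε hε _
      apply Metric.ball_disjoint_ball
      linarith [hε.2]
  have h2 : ∀ r, ∀ᶠ ε in 𝓝[>] (0 : ℝ), ∀ p ∈ Metric.ball (L (a r)) ε,
      ∀ q ∈ Metric.ball (L (b r)) ε, q.1 < p.1 := by
    intro r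
    have hc : ContinuousAt (fun w : (ℝ × ℝ) × (ℝ × ℝ) => w.2.1 - w.1.1) (L (a r), L (b r)) := by
      fun_prop
    have h3 := hc.eventually_lt (continuousAt_const (y := (0 : ℝ))) (by
      show (L (b r)).1 - (L (a r)).1 < 0
      linarith [hs r])
    obtain ⟨δ, hδ, hball⟩ := Metric.eventually_nhds_iff.mp h3
    filter_upwards [Ioo_mem_nhdsGT hδ] with ε hε p hp q hq
    have := hball (y := (p, q)) (by
      rw [Prod.dist_eq]
      exact max_lt ((Metric.mem_ball.1 hp).trans hε.2) ((Metric.mem_ball.1 hq).trans hε.2))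
    simp only at this
    linarith
  have h3 : ∀ r c, ∀ᶠ ε in 𝓝[>] (0 : ℝ), c ≠ a r → c ≠ b r → ∀ p ∈ Metric.ball (L (a r)) ε,
      ∀ q ∈ Metric.ball (L (b r)) ε, ∀ z ∈ Metric.ball (L c) ε,
      (z ∈ low p q ↔ L c ∈ low (L (a r)) (L (b r))) := by
    intro r c
    by_cases hca : c = a r
    · exact Eventually.of_forall fun _ h => absurd hca h
    by_cases hcb : c = b r
    · exact Eventually.of_forall fun _ _ h => absurd hcb h
    have hcs := cont_side (z := L c) (hs r)
    rcases lt_or_gt_of_ne (hne r c hca hcb) with h | h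
    · have h4 := hcs.eventually_lt (continuousAt_const (y := (0 : ℝ))) (by
        simp only
        linarith)
      obtain ⟨δ, hδ, hball⟩ := Metric.eventually_nhds_iff.mp h4
      filter_upwards [Ioo_mem_nhdsGT hδ] with ε hε _ _ p hp q hq z hz
      have h5 := hball (y := ((p, q), z)) (by
        rw [Prod.dist_eq, Prod.dist_eq]
        exact max_lt (max_lt ((Metric.mem_ball.1 hp).trans hε.2)
          ((Metric.mem_ball.1 hq).trans hε.2)) ((Metric.mem_ball.1 hz).trans hε.2))
      simp only at h5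
      refine ⟨fun _ => h, fun _ => ?_⟩
      show z.1 * X2 p q + z.2 < Y2 p q
      linarith
    · have h4 := (continuousAt_const (y := (0 : ℝ))).eventually_lt hcs (by
        simp only
        linarith)
      obtain ⟨δ, hδ, hball⟩ := Metric.eventually_nhds_iff.mp h4
      filter_upwards [Ioo_mem_nhdsGT hδ] with ε hε _ _ p hp q hq z hz
      have h5 := hball (y := ((p, q), z)) (by
        rw [Prod.dist_eq, Prod.dist_eq]
        exact max_lt (max_lt ((Metric.mem_ball.1 hp).trans hε.2)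
          ((Metric.mem_ball.1 hq).trans hε.2)) ((Metric.mem_ball.1 hz).trans hε.2))
      simp only at h5
      constructor
      · intro h6
        have h7 : z.1 * X2 p q + z.2 < Y2 p q := h6
        linarith
      · intro h6
        exact absurd h6 (not_lt.2 h.le)
  have h4 : ∀ᶠ ε in 𝓝[>] (0 : ℝ), 0 < ε := eventually_mem_nhdsWithin
  have h1' := eventually_all.2 fun i => eventually_all.2 (h1 i)
  have h2' := eventually_all.2 h2
  have h3' := eventually_all.2 fun r => eventually_all.2 (h3 r)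
  obtain ⟨ε, e0, e1, e2, e3⟩ := (h4.and (h1'.and (h2'.and h3'))).exists
  exact ⟨ε, e0, e1, e2, e3⟩

variable {R : Type} [Fintype R] {a b : R → ι} {k : ℕ}

open Classical in
lemma mass_bounds (hε : 0 < ε) (hT : Tiny L a b ε)
    (hk : ∀ r, (univ.filter (fun c => L c ∈ low (L (a r)) (L (b r)))).card = k) (r : R)
    {p q : ℝ × ℝ} (hp : p ∈ Metric.ball (L (a r)) ε) (hq : q ∈ Metric.ball (L (b r)) ε) :
    (k : ℝ) / Fintype.card ι ≤ FF (mix L ε) p q ∧
      FF (mix L ε) p q ≤ (k + 2) / Fintype.card ι := by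
  have hp' := hT.lt r p hp q hq
  have ha : L (a r) ∉ low (L (a r)) (L (b r)) := fst_notMem_low _ _
  have hb : L (b r) ∉ low (L (a r)) (L (b r)) := by
    have := hT.lt r (L (a r)) (Metric.mem_ball_self hε) (L (b r)) (Metric.mem_ball_self hε)
    exact snd_notMem_low this
  have hout : ∀ c, c ≠ a r → c ≠ b r → nu L ε c (low p q) =
      if L c ∈ low (L (a r)) (L (b r)) then 1 else 0 := by
    intro c h1 h2
    have h3 := hT.side r c h1 h2 p hp q hq
    split_ifs with h
    · have hsub : Metric.ball (L c) ε ⊆ low p q := fun z hz => (h3 z hz).2 h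
      have : IsProbabilityMeasure (nu L ε c) := nu_prob hε c
      apply le_antisymm prob_le_one
      rw [← nu_ball hε c]
      exact measure_mono hsub
    · apply nu_out
      rw [Set.disjoint_left]
      intro z hz hz'
      exact h ((h3 z hz).1 hz')
  have hlow : ∀ c, (if L c ∈ low (L (a r)) (L (b r)) then (1 : ℝ≥0∞) else 0) ≤
      nu L ε c (low p q) := by
    intro c
    by_cases h1 : c = a r
    · rw [h1, if_neg ha]
      exact zero_le
    by_cases h2 : c = b r
    · rw [h2, if_neg hb]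
      exact zero_le
    rw [hout c h1 h2]
  have hup : ∀ c, nu L ε c (low p q) ≤ (if L c ∈ low (L (a r)) (L (b r)) then (1 : ℝ≥0∞) else 0) +
      ((if c = a r then 1 else 0) + (if c = b r then 1 else 0)) := by
    intro c
    have : IsProbabilityMeasure (nu L ε c) := nu_prob hε c
    by_cases h1 : c = a r
    · rw [if_pos h1]
      exact prob_le_one.trans (le_trans le_self_add le_add_self)
    by_cases h2 : c = b r
    · rw [if_pos h2]
      exact prob_le_one.trans (le_trans le_add_self le_add_self)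
    rw [hout c h1 h2]
    exact le_self_add
  have hcard : ∑ c, (if L c ∈ low (L (a r)) (L (b r)) then (1 : ℝ≥0∞) else 0) = k := by
    rw [← hk r, card_filter]
    push_cast
    rfl
  have s1 : (k : ℝ≥0∞) ≤ ∑ c, nu L ε c (low p q) := by
    rw [← hcard]
    exact sum_le_sum fun c _ => hlow c
  have s2 : ∑ c, nu L ε c (low p q) ≤ ((k + 2 : ℕ) : ℝ≥0∞) := by
    refine (sum_le_sum fun c _ => hup c).trans ?_
    rw [sum_add_distrib, sum_add_distrib, hcard]
    simp only [sum_ite_eq', mem_univ, if_true]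
    push_cast
    norm_num
  have hM : (0 : ℝ) < Fintype.card ι := by
    have : 0 < Fintype.card ι := Fintype.card_pos_iff.2 ⟨a r⟩
    exact_mod_cast this
  have hfin : ∑ c, nu L ε c (low p q) ≠ ⊤ := ne_top_of_le_ne_top (ENNReal.natCast_ne_top _) s2
  have hFF : FF (mix L ε) p q = (∑ c, nu L ε c (low p q)).toReal / Fintype.card ι := by
    unfold FF
    rw [mix_apply, ENNReal.toReal_mul, ENNReal.toReal_inv, ENNReal.toReal_natCast, div_eq_inv_mul]
  rw [hFF]
  have t1 := ENNReal.toReal_mono hfin s1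
  have t2 := ENNReal.toReal_mono (ENNReal.natCast_ne_top _) s2
  rw [ENNReal.toReal_natCast] at t1 t2
  push_cast at t2
  exact ⟨div_le_div_of_nonneg_right t1 hM.le, div_le_div_of_nonneg_right t2 hM.le⟩

/-- the pairs of lines close to the pairs of the events -/
def AA (L : ι → ℝ × ℝ) (a b : R → ι) (ε : ℝ) : Set ((ℝ × ℝ) × (ℝ × ℝ)) :=
  ⋃ r, Metric.ball (L (a r)) ε ×ˢ Metric.ball (L (b r)) ε

lemma meas_AA : MeasurableSet (AA L a b ε) :=
  MeasurableSet.iUnion fun _ => measurableSet_ball.prod measurableSet_ball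

lemma ee_AA [Nonempty ι] (hε : 0 < ε) (hT : Tiny L a b ε)
    (hinj : ∀ r r', a r = a r' → b r = b r' → r = r') :
    (Fintype.card R : ℝ≥0∞) * ((Fintype.card ι : ℝ≥0∞)⁻¹ * (Fintype.card ι : ℝ≥0∞)⁻¹) ≤
      ee (mix L ε) (AA L a b ε) := by
  have : IsProbabilityMeasure (mix L ε) := mix_prob hε
  set S : R → Set (Fin 2 → ℝ × ℝ) := fun r =>
    Set.univ.pi ![Metric.ball (L (a r)) ε, Metric.ball (L (b r)) ε] with hS
  have hSm : ∀ r, MeasurableSet (S r) := by
    intro r
    apply MeasurableSet.univ_pi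
    intro i
    fin_cases i
    · exact measurableSet_ball
    · exact measurableSet_ball
  have hmem : ∀ r P, P ∈ S r ↔ P 0 ∈ Metric.ball (L (a r)) ε ∧ P 1 ∈ Metric.ball (L (b r)) ε := by
    intro r P
    rw [hS]
    simp only [Set.mem_univ_pi, Fin.forall_fin_two]
    rfl
  have hdisj : Pairwise (Function.onFun Disjoint S) := by
    intro r r' hrr
    rw [Function.onFun, Set.disjoint_left]
    intro P h1 h2
    rw [hmem] at h1 h2
    apply hrr
    apply hinj
    · by_contra h
      exact Set.disjoint_left.1 (hT.disj _ _ h) h1.1 h2.1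
    · by_contra h
      exact Set.disjoint_left.1 (hT.disj _ _ h) h1.2 h2.2
  have hball : ∀ i, (Fintype.card ι : ℝ≥0∞)⁻¹ ≤ mix L ε (Metric.ball (L i) ε) := by
    intro i
    rw [mix_apply]
    have h1 : nu L ε i (Metric.ball (L i) ε) ≤ ∑ j, nu L ε j (Metric.ball (L i) ε) :=
      single_le_sum (f := fun j => nu L ε j (Metric.ball (L i) ε)) (fun _ _ => zero_le)
        (mem_univ i)
    rw [nu_ball hε] at h1
    calc (Fintype.card ι : ℝ≥0∞)⁻¹ = (Fintype.card ι : ℝ≥0∞)⁻¹ * 1 := (mul_one _).symm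
      _ ≤ _ := by gcongr
  have hSr : ∀ r, (Fintype.card ι : ℝ≥0∞)⁻¹ * (Fintype.card ι : ℝ≥0∞)⁻¹ ≤
      Measure.pi (fun _ : Fin 2 => mix L ε) (S r) := by
    intro r
    rw [hS, Measure.pi_pi, Fin.prod_univ_two]
    exact mul_le_mul' (hball _) (hball _)
  unfold ee
  calc _ = ∑ r : R, ((Fintype.card ι : ℝ≥0∞)⁻¹ * (Fintype.card ι : ℝ≥0∞)⁻¹) := by
        rw [sum_const, card_univ, nsmul_eq_mul]
    _ ≤ ∑ r : R, Measure.pi (fun _ : Fin 2 => mix L ε) (S r) := sum_le_sum fun r _ => hSr r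
    _ = Measure.pi (fun _ : Fin 2 => mix L ε) (⋃ r, S r) := by
        rw [measure_iUnion hdisj hSm, tsum_fintype]
    _ ≤ _ := by
        apply measure_mono
        intro P hP
        rw [Set.mem_iUnion] at hP
        obtain ⟨r, hr⟩ := hP
        rw [hmem] at hr
        refine ⟨hT.lt r _ hr.1 _ hr.2, ?_⟩
        rw [AA, Set.mem_iUnion]
        exact ⟨r, hr.1, hr.2⟩

open Classical in
/-- the expected number of crossings of level `t` -/
theorem clu_lower [Nonempty ι] (hε : 0 < ε) (hT : Tiny L a b ε)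
    (hinj : ∀ r r', a r = a r' → b r = b r' → r = r')
    (hk : ∀ r, (univ.filter (fun c => L c ∈ low (L (a r)) (L (b r)))).card = k)
    (n t : ℕ) {m0 : ℝ} (hm0 : 0 ≤ m0)
    (hm : ∀ F : ℝ, (k : ℝ) / Fintype.card ι ≤ F → F ≤ (k + 2) / Fintype.card ι →
      m0 ≤ F ^ t * (1 - F) ^ (n - 2 - t)) :
    ENNReal.ofReal (((n : ℝ) * n - n) * ((n - 2).choose t * m0 *
      (Fintype.card R / (Fintype.card ι : ℝ) ^ 2))) ≤
    ∫⁻ P, (((T P).filter (fun q => lev P q = t)).card : ℝ≥0∞)
      ∂Measure.pi (fun _ : Fin n => mix L ε) := by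
  have : IsProbabilityMeasure (mix L ε) := mix_prob hε
  rw [E_lev t]
  have hM : (0 : ℝ) < Fintype.card ι := by
    have : 0 < Fintype.card ι := Fintype.card_pos
    exact_mod_cast this
  have hterm : ∀ q ∈ (univ : Finset (Fin n)).offDiag,
      ENNReal.ofReal ((n - 2).choose t * m0 * (Fintype.card R / (Fintype.card ι : ℝ) ^ 2)) ≤
      Measure.pi (fun _ : Fin n => mix L ε)
        {P | P ∈ Ev2 Set.univ q.1 q.2 ∧ lev P (q.1, q.2) = t} := by
    intro q hq
    rw [mem_offDiag] at hq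
    rw [lev_prob hq.2.2 t]
    calc ENNReal.ofReal ((n - 2).choose t * m0 * (Fintype.card R / (Fintype.card ι : ℝ) ^ 2)) =
          ((n - 2).choose t : ℝ≥0∞) * (ENNReal.ofReal m0 * ((Fintype.card R : ℝ≥0∞) *
            ((Fintype.card ι : ℝ≥0∞)⁻¹ * (Fintype.card ι : ℝ≥0∞)⁻¹))) := by
          rw [mul_assoc, ENNReal.ofReal_mul (Nat.cast_nonneg _), ENNReal.ofReal_natCast,
            ENNReal.ofReal_mul hm0, div_eq_mul_inv, ENNReal.ofReal_mul (Nat.cast_nonneg _),
            ENNReal.ofReal_natCast, sq, mul_inv, ENNReal.ofReal_mul (by positivity),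
            ENNReal.ofReal_inv_of_pos hM, ENNReal.ofReal_natCast]
      _ ≤ ((n - 2).choose t : ℝ≥0∞) * (ENNReal.ofReal m0 * ee (mix L ε) (AA L a b ε)) := by
          gcongr
          exact ee_AA hε hT hinj
      _ = ((n - 2).choose t : ℝ≥0∞) * ∫⁻ P in Ev2 (AA L a b ε) q.1 q.2, ENNReal.ofReal m0
            ∂Measure.pi (fun _ : Fin n => mix L ε) := by
          rw [setLIntegral_const, pi_Ev2 meas_AA hq.2.2]
      _ ≤ ((n - 2).choose t : ℝ≥0∞) * ∫⁻ P in Ev2 (AA L a b ε) q.1 q.2, ENNReal.ofReal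
            (FF (mix L ε) (P q.1) (P q.2) ^ t * (1 - FF (mix L ε) (P q.1) (P q.2)) ^ (n - 2 - t))
            ∂Measure.pi (fun _ : Fin n => mix L ε) := by
          refine mul_le_mul' le_rfl ?_
          apply setLIntegral_mono' (meas_Ev2 meas_AA q.1 q.2)
          intro P hP
          apply ENNReal.ofReal_le_ofReal
          have hP2 := hP.2
          rw [AA, Set.mem_iUnion] at hP2
          obtain ⟨r, hr⟩ := hP2
          have h1 := mass_bounds hε hT hk r hr.1 hr.2
          exact hm _ h1.1 h1.2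
      _ ≤ _ := by
          refine mul_le_mul' le_rfl ?_
          exact lintegral_mono_set fun P hP => ⟨hP.1, trivial⟩
  calc _ = ∑ q ∈ (univ : Finset (Fin n)).offDiag,
      ENNReal.ofReal ((n - 2).choose t * m0 * (Fintype.card R / (Fintype.card ι : ℝ) ^ 2)) := by
        rw [sum_const, offDiag_card, card_univ, Fintype.card_fin, nsmul_eq_mul,
          ← ENNReal.ofReal_natCast, ← ENNReal.ofReal_mul (Nat.cast_nonneg _),
          Nat.cast_sub (Nat.le_mul_self n)]
        push_cast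
        rfl
    _ ≤ _ := sum_le_sum hterm

end Pool.Agent.U272.LB
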