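import Pool.Agent.U272.LB.Clu
import Pool.Agent.U272.LB.Mid
import Pool.Agent.U272.LB.Psi

/-!
# From the halving level of a family of lines to independent random lines
-/

set_option autoImplicit false

namespace Pool.Agent.U272.LB

open Finset MeasureTheory Filter Pool.Agent.H189R2.Lev Pool.Agent.H189R2.Iid Topology
open Pool.Agent.Results.MP_a08d0a_co.IidLevel
open scoped ENNReal

/-- the binomial weights near the middle -/
lemma weight_low2 {N a : ℕ} (ha : 4 ≤ a) (hN : N ≤ 4 * a ^ 2) {F : ℝ}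
    (hF : |2 * F - 1| ≤ 2 / a) :
    (1 / 2 : ℝ) ^ N * (1 / 2 ^ 33) ≤ F ^ (N / 2) * (1 - F) ^ (N - N / 2) := by
  have ha0 : (4 : ℝ) ≤ a := by exact_mod_cast ha
  set u := 2 * F - 1 with hu
  have h1a : (2 : ℝ) / a ≤ 1 / 2 := by
    rw [div_le_iff₀ (by linarith)]
    linarith
  have hu2 := abs_le.1 hF
  have hF1 : F = (1 / 2) * (1 + u) := by rw [hu]; ring
  have hF2 : 1 - F = (1 / 2) * (1 - u) := by rw [hu]; ring
  set v : ℝ := 4 / (a : ℝ) ^ 2 with hv
  have huu : u ^ 2 ≤ v := by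
    rw [← sq_abs u, hv, show (4 : ℝ) / (a : ℝ) ^ 2 = (2 / a) ^ 2 by rw [div_pow]; norm_num]
    exact pow_le_pow_left₀ (abs_nonneg _) hF 2
  have hv1 : v ≤ 1 / 4 := by
    rw [hv, div_le_iff₀ (by positivity)]
    nlinarith
  have hv0 : 0 < v := by positivity
  obtain ⟨t, ht⟩ : ∃ t, t = N / 2 := ⟨_, rfl⟩
  rw [← ht]
  have hpow : (1 / 2 ^ 32 : ℝ) ≤ (1 - v) ^ t := by
    obtain ⟨s, hs⟩ : ∃ s, s = t / 32 + 1 := ⟨_, rfl⟩
    have hts : t ≤ 32 * s := by omega
    have hsa : 8 * s ≤ a ^ 2 := by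
      have h1 : 32 * (s - 1) ≤ t := by omega
      have h2 : 2 * t ≤ 4 * a ^ 2 := by omega
      have h3 : 16 ≤ a ^ 2 := by nlinarith
      omega
    have hsv : s * v ≤ 1 / 2 := by
      have h1 : (8 * s : ℝ) ≤ (a : ℝ) ^ 2 := by exact_mod_cast hsa
      rw [hv, ← mul_div_assoc, div_le_iff₀ (by positivity)]
      linarith
    have hb := one_add_mul_le_pow (a := -v) (by linarith) s
    have hb' : 1 / 2 ≤ (1 - v) ^ s := by
      have : 1 + (s : ℝ) * -v ≤ (1 - v) ^ s := by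
        rw [sub_eq_add_neg]; exact hb
      linarith
    calc (1 / 2 ^ 32 : ℝ) = (1 / 2) ^ 32 := by norm_num
      _ ≤ ((1 - v) ^ s) ^ 32 := pow_le_pow_left₀ (by norm_num) hb' 32
      _ = (1 - v) ^ (32 * s) := by rw [← pow_mul, mul_comm]
      _ ≤ (1 - v) ^ t := pow_le_pow_of_le_one (by linarith) (by linarith) hts
  have hNt : N - t = t ∨ N - t = t + 1 := by omega
  have hkey : (1 / 2 ^ 33 : ℝ) ≤ (1 + u) ^ t * (1 - u) ^ (N - t) := by
    have h1 : (1 / 2 ^ 32 : ℝ) ≤ ((1 + u) * (1 - u)) ^ t := by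
      refine hpow.trans (pow_le_pow_left₀ (by linarith) ?_ t)
      nlinarith
    rw [mul_pow] at h1
    rcases hNt with h | h
    · rw [h]
      have : (1 / 2 ^ 33 : ℝ) ≤ 1 / 2 ^ 32 := by norm_num
      linarith
    · rw [h, pow_succ (1 - u), ← mul_assoc]
      have h2 : 1 / 2 ≤ 1 - u := by linarith
      have h3 : (1 / 2 ^ 33 : ℝ) = (1 / 2 ^ 32) * (1 / 2) := by norm_num
      rw [h3]
      exact mul_le_mul h1 h2 (by norm_num) (by
        refine le_trans (by norm_num) h1)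
  have hsplit : (1 / 2 : ℝ) ^ N = (1 / 2) ^ t * (1 / 2) ^ (N - t) := by
    rw [← pow_add]
    congr 1
    omega
  rw [hF2]
  conv_rhs => rw [hF1]
  rw [mul_pow, mul_pow, hsplit]
  have h3 : (0 : ℝ) < (1 / 2) ^ t * (1 / 2) ^ (N - t) := by positivity
  calc (1 / 2 : ℝ) ^ t * (1 / 2) ^ (N - t) * (1 / 2 ^ 33) ≤
      (1 / 2 : ℝ) ^ t * (1 / 2) ^ (N - t) * ((1 + u) ^ t * (1 - u) ^ (N - t)) :=
        mul_le_mul_of_nonneg_left hkey h3.le
    _ = _ := by ring

open Classical in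
/-- a law from the crossings of one of the two middle levels -/
lemma simple_law {a n k : ℕ} {P : Fin (2 * a) → ℝ × ℝ} (hS : Simple (sl P) (ic P))
    (hinj : Function.Injective (sl P)) (ha : 4 ≤ a) (hn : n ≤ 4 * a ^ 2)
    (hk : k = a - 1 ∨ k = a) :
    ∃ μ : Measure (ℝ × ℝ), IsProbabilityMeasure μ ∧ μ ≪ volume ∧ LN μ ∧
      ENNReal.ofReal (((n : ℝ) * n - n) * ((n - 2).choose ((n - 2) / 2) *
        ((1 / 2 : ℝ) ^ (n - 2) * (1 / 2 ^ 33)) *
        (((T P).filter (fun q => lev P q = k)).card / ((2 * a : ℕ) : ℝ) ^ 2))) ≤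
      ∫⁻ P, (((T P).filter (fun q => lev P q = (n - 2) / 2)).card : ℝ≥0∞)
        ∂Measure.pi (fun _ : Fin n => μ) := by
  have hmem : ∀ r : {q // q ∈ (T P).filter (fun q => lev P q = k)},
      (P r.1.2).1 < (P r.1.1).1 ∧ lev P r.1 = k := by
    intro r
    have := r.2
    rw [mem_filter, mem_T] at this
    exact this
  have hne' : Nonempty (Fin (2 * a)) := ⟨⟨0, by omega⟩⟩
  have hLinj : Function.Injective P := fun i j h => hinj (by
    show (P i).1 = (P j).1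
    rw [h])
  obtain ⟨ε, hε, hT⟩ := exists_tiny (L := P)
    (a := fun r : {q // q ∈ (T P).filter (fun q => lev P q = k)} => r.1.1)
    (b := fun r => r.1.2) hLinj (fun r => (hmem r).1) (by
      intro r c h1 h2 h3
      have h4 := (hmem r).1
      have hij : r.1.1 ≠ r.1.2 := by
        intro h
        rw [h] at h4
        exact lt_irrefl _ h4
      refine hS.2 r.1.1 r.1.2 c hij (Ne.symm h1) (Ne.symm h2)
        ⟨X2 (P r.1.1) (P r.1.2), ?_, ?_⟩
      · show (P r.1.1).1 * X2 (P r.1.1) (P r.1.2) + (P r.1.1).2 =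
          (P r.1.2).1 * X2 (P r.1.1) (P r.1.2) + (P r.1.2).2
        have h5 : (P r.1.1).1 - (P r.1.2).1 ≠ 0 := by linarith
        unfold X2
        field_simp
        ring
      · exact h3.symm)
  have hlow := clu_lower hε hT (fun r r' h1 h2 => Subtype.ext (Prod.ext h1 h2))
    (k := k) (fun r => (hmem r).2) n ((n - 2) / 2)
    (m0 := (1 / 2 : ℝ) ^ (n - 2) * (1 / 2 ^ 33)) (by positivity) (by
    intro F hF1 hF2
    rw [Fintype.card_fin] at hF1 hF2
    apply weight_low2 (a := a) ha (by omega)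
    have ha0 : (0 : ℝ) < a := by exact_mod_cast (by omega : 0 < a)
    have e2 : (a : ℝ) - 1 ≤ k ∧ (k : ℝ) ≤ a := by
      rcases hk with h | h
      · rw [h, Nat.cast_sub (by omega)]
        norm_num
      · rw [h]
        constructor <;> linarith
    push_cast at hF1 hF2
    rw [div_le_iff₀ (by positivity)] at hF1
    rw [le_div_iff₀ (by positivity)] at hF2
    rw [abs_le]
    constructor
    · rw [neg_le, neg_sub]
      rw [le_div_iff₀ ha0]
      linarith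
    · rw [le_div_iff₀ ha0]
      linarith)
  rw [Fintype.card_fin, Fintype.card_coe] at hlow
  exact ⟨mix P ε, mix_prob hε, mix_ac, mix_LN, hlow⟩

lemma real_tr2 {n a : ℕ} {E c : ℝ} (hn : 2 ≤ n) (ha : 1 ≤ a) (h1 : a ^ 2 ≤ n) (hE0 : 0 ≤ E)
    (hc : (2 : ℝ) ^ (n - 2) ≤ 4 * Real.sqrt ((n - 2 : ℕ) : ℝ) * c) (hc0 : 0 ≤ c) :
    1 / 2 ^ 38 * (Real.sqrt n * E) ≤
      ((n : ℝ) * n - n) * (c * ((1 / 2 : ℝ) ^ (n - 2) * (1 / 2 ^ 33)) *
        (E / ((2 * a : ℕ) : ℝ) ^ 2)) := by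
  have h1' : (a : ℝ) ^ 2 ≤ n := by exact_mod_cast h1
  have ha0 : (1 : ℝ) ≤ a := by exact_mod_cast ha
  have hn2 : (2 : ℝ) ≤ n := by exact_mod_cast hn
  have hs0 : 0 < Real.sqrt n := Real.sqrt_pos.2 (by linarith)
  have hss : Real.sqrt n * Real.sqrt n = n := Real.mul_self_sqrt (by linarith)
  have hNn : Real.sqrt ((n - 2 : ℕ) : ℝ) ≤ Real.sqrt n := by
    apply Real.sqrt_le_sqrt
    exact_mod_cast (by omega : n - 2 ≤ n)
  have hc1 : 1 ≤ 4 * Real.sqrt n * (c * (1 / 2 : ℝ) ^ (n - 2)) := by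
    have h3 : (2 : ℝ) ^ (n - 2) * (1 / 2 : ℝ) ^ (n - 2) = 1 := by
      rw [← mul_pow]
      norm_num
    have h4 : (2 : ℝ) ^ (n - 2) ≤ 4 * Real.sqrt n * c := by
      refine hc.trans ?_
      gcongr
    have h5 : (0 : ℝ) ≤ (1 / 2 : ℝ) ^ (n - 2) := by positivity
    have h6 := mul_le_mul_of_nonneg_right h4 h5
    rw [h3] at h6
    linarith
  set w := c * (1 / 2 : ℝ) ^ (n - 2) with hw
  have hw0 : 0 ≤ w := by positivity
  have hnn : (n : ℝ) / 2 * n ≤ (n : ℝ) * n - n := by nlinarith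
  have hnn0 : (0 : ℝ) ≤ (n : ℝ) * n - n := by nlinarith
  have h5 : E / (4 * n) ≤ E / ((2 * a : ℕ) : ℝ) ^ 2 := by
    apply div_le_div_of_nonneg_left hE0 (by positivity)
    push_cast
    nlinarith
  have h6 : 1 / (4 * Real.sqrt n) ≤ w := by
    rw [div_le_iff₀ (by positivity)]
    linarith
  calc 1 / 2 ^ 38 * (Real.sqrt n * E) =
      ((n : ℝ) / 2 * n) * ((1 / (4 * Real.sqrt n)) * (1 / 2 ^ 33) * (E / (4 * n))) := by
        have : (n : ℝ) ≠ 0 := by linarith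
        field_simp
        rw [show Real.sqrt n ^ 2 = n by rw [sq, hss]]
        ring
    _ ≤ ((n : ℝ) * n - n) * (w * (1 / 2 ^ 33) * (E / ((2 * a : ℕ) : ℝ) ^ 2)) := by
        gcongr
    _ = _ := by rw [hw]; ring

/-- from crossings to the complexity -/
lemma to_psi2 {μ : Measure (ℝ × ℝ)} [IsProbabilityMeasure μ] (hμ : LN μ) {n : ℕ} (hn : 2 ≤ n)
    {x : ℝ≥0∞}
    (h : x ≤ ∫⁻ P, (((T P).filter (fun q => lev P q = (n - 2) / 2)).card : ℝ≥0∞)
      ∂Measure.pi (fun _ : Fin n => μ)) :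
    x ≤ ∫⁻ P, (psi (sl P) (ic P) (n / 2) : ℝ≥0∞) ∂Measure.pi (fun _ : Fin n => μ) := by
  refine h.trans ?_
  apply lintegral_mono_ae
  filter_upwards [ae_GP hμ n] with P hP
  have h8 := lev_crossings (P := P) ((n - 2) / 2)
  have h9 := le_psi (simple_of_GP hP) ((n - 2) / 2)
  have e3 : (n - 2) / 2 + 1 = n / 2 := by omega
  rw [e3] at h9
  have h10 : (((T P).filter (fun q => lev P q = (n - 2) / 2)).card : ℕ∞) ≤
      psi (sl P) (ic P) (n / 2) := le_trans (by exact_mod_cast h8) h9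
  have h11 := ENat.toENNReal_mono h10
  simpa using h11

/-- **Transfer.** -/
theorem transfer {a n : ℕ} {A B : Fin (2 * a) → ℝ} (hS : Simple A B)
    (hinj : Function.Injective A) (ha : 4 ≤ a) (hn1 : a ^ 2 ≤ n) (hn2 : n ≤ 4 * a ^ 2) :
    ∃ μ : Measure (ℝ × ℝ), IsProbabilityMeasure μ ∧ μ ≪ volume ∧
      ENNReal.ofReal (1 / 2 ^ 39 * Real.sqrt n) * (psi A B a : ℝ≥0∞) ≤
      ∫⁻ P, (psi (sl P) (ic P) (n / 2) : ℝ≥0∞) ∂Measure.pi (fun _ : Fin n => μ) := by
  classical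
  set P : Fin (2 * a) → ℝ × ℝ := fun i => (A i, B i) with hP
  have hslA : sl P = A := rfl
  have hicB : ic P = B := rfl
  have hS' : Simple (sl P) (ic P) := hS
  have hinj' : Function.Injective (sl P) := hinj
  have h1 := psi_le (a := A) (B := B) hS (k := a) (by omega)
  rw [if_neg (by omega)] at h1
  -- one of the two levels has at least half of the crossings
  obtain ⟨k, hk, hle⟩ : ∃ k, (k = a - 1 ∨ k = a) ∧
      psi A B a ≤ ((2 * (crossings A B k).ncard : ℕ) : ℕ∞) := by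
    rcases le_total (crossings A B a).ncard (crossings A B (a - 1)).ncard with h | h
    · refine ⟨a - 1, Or.inl rfl, h1.trans ?_⟩
      exact_mod_cast (by omega)
    · refine ⟨a, Or.inr rfl, h1.trans ?_⟩
      exact_mod_cast (by omega)
  have hcl := crossings_lev (P := P) k
  rw [hslA, hicB] at hcl
  obtain ⟨μ, hp, hac, hLN, hlow⟩ := simple_law (n := n) hS' hinj' ha hn2 hk
  have h16 : 16 ≤ n := by nlinarith
  refine ⟨μ, hp, hac, to_psi2 hLN (by omega) (le_trans ?_ hlow)⟩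
  set E : ℕ := ((T P).filter (fun q => lev P q = k)).card with hE
  have h2 : (psi A B a : ℝ≥0∞) ≤ ((2 * E : ℕ) : ℝ≥0∞) := by
    have h3 : psi A B a ≤ ((2 * E : ℕ) : ℕ∞) := hle.trans (by exact_mod_cast (by omega))
    have h4 := ENat.toENNReal_mono h3
    simpa using h4
  calc ENNReal.ofReal (1 / 2 ^ 39 * Real.sqrt n) * (psi A B a : ℝ≥0∞) ≤
      ENNReal.ofReal (1 / 2 ^ 39 * Real.sqrt n) * ((2 * E : ℕ) : ℝ≥0∞) := by gcongr
    _ = ENNReal.ofReal (1 / 2 ^ 38 * (Real.sqrt n * E)) := by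
        rw [← ENNReal.ofReal_natCast, ← ENNReal.ofReal_mul (by positivity)]
        congr 1
        push_cast
        ring
    _ ≤ _ := by
        apply ENNReal.ofReal_le_ofReal
        exact real_tr2 (by omega) (by omega) hn1 (Nat.cast_nonneg _) (choose_mid (n - 2) (by omega))
          (Nat.cast_nonneg _)

end Pool.Agent.U272.LB
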